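import Pool.Agent.H74.TSD.Targets

/-!
# Module A7: the slab inequality for the second coordinate
-/

set_option autoImplicit false

open MeasureTheory Set Metric Filter
open scoped ENNReal Pointwise Topology

namespace Pool.Agent.H91.TSD

open Pool.Agent.H74.TSD Pool.Agent.H73.TS

theorem exists_height {Z : Set (ℝ × ℝ)} (hc : Convex ℝ Z) {u v : ℝ × ℝ} (hu : u ∈ Z) (hv : v ∈ Z)
    {s : ℝ} (h1 : u.2 ≤ s) (h2 : s ≤ v.2) : ∃ z ∈ Z, z.2 = s := by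
  have hp : IsPreconnected (Prod.snd '' Z) :=
    hc.isPreconnected.image _ continuous_snd.continuousOn
  have hs : s ∈ Prod.snd '' Z :=
    hp.Icc_subset (mem_image_of_mem _ hu) (mem_image_of_mem _ hv) ⟨h1, h2⟩
  obtain ⟨z, hz, rfl⟩ := hs
  exact ⟨z, hz, rfl⟩

theorem convex_le_snd (t : ℝ) : Convex ℝ {x : ℝ × ℝ | t ≤ x.2} :=
  convex_halfSpace_ge (f := fun x : ℝ × ℝ => x.2) (IsLinearMap.mk (fun _ _ => rfl) (fun _ _ => rfl)) t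

theorem convex_snd_le (t : ℝ) : Convex ℝ {x : ℝ × ℝ | x.2 ≤ t} :=
  convex_halfSpace_le (f := fun x : ℝ × ℝ => x.2) (IsLinearMap.mk (fun _ _ => rfl) (fun _ _ => rfl)) t

theorem pf_A7 (h4 : T_A4) (h6 : T_A6) : T_A7 := by
  intro Z C t κ hZ hZc hC hCc hCs hCw hκ hκC ⟨u, hu⟩ ⟨v, hv⟩
  obtain ⟨huZ, hut⟩ := hu
  obtain ⟨hvZ, hvt⟩ := hv
  simp only [mem_setOf_eq] at hut hvt
  obtain ⟨a, haZ, hat⟩ := exists_height hZc huZ hvZ hut (by linarith)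
  obtain ⟨b, hbZ, hbt⟩ := exists_height hZc huZ hvZ (s := t + 1) (by linarith) hvt
  have hcl1 : IsClosed {x : ℝ × ℝ | t ≤ x.2} := isClosed_le continuous_const continuous_snd
  have hcl2 : IsClosed {x : ℝ × ℝ | x.2 ≤ t + 1} := isClosed_le continuous_snd continuous_const
  have h1 := h4 Z C t hZ hZc hC hCc ⟨u, huZ, hut⟩ ⟨v, hvZ, by simp only [mem_setOf_eq]; linarith⟩
  have hZ' : IsCompact (Z ∩ {x | t ≤ x.2}) := hZ.inter_right hcl1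
  have hZ'c : Convex ℝ (Z ∩ {x | t ≤ x.2}) := hZc.inter (convex_le_snd t)
  have h2 := h4 (Z ∩ {x | t ≤ x.2}) C (t + 1) hZ' hZ'c hC hCc
    ⟨b, ⟨hbZ, by simp only [mem_setOf_eq]; linarith⟩, by simp only [mem_setOf_eq]; linarith⟩
    ⟨v, ⟨hvZ, by simp only [mem_setOf_eq]; linarith⟩, hvt⟩
  have e1 : (Z ∩ {x : ℝ × ℝ | t ≤ x.2}) ∩ {x | x.2 = t + 1} = Z ∩ {x | x.2 = t + 1} := by
    ext x
    simp only [mem_inter_iff, mem_setOf_eq]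
    constructor
    · rintro ⟨⟨h, -⟩, h'⟩; exact ⟨h, h'⟩
    · rintro ⟨h, h'⟩; exact ⟨⟨h, by linarith⟩, h'⟩
  have e2 : (Z ∩ {x : ℝ × ℝ | t ≤ x.2}) ∩ {x | t + 1 ≤ x.2} = Z ∩ {x | t + 1 ≤ x.2} := by
    ext x
    simp only [mem_inter_iff, mem_setOf_eq]
    constructor
    · rintro ⟨⟨h, -⟩, h'⟩; exact ⟨h, h'⟩
    · rintro ⟨h, h'⟩; exact ⟨⟨h, by linarith⟩, h'⟩
  rw [e1, e2] at h2
  have e3 : ((Z ∩ {x : ℝ × ℝ | t ≤ x.2}) ∩ {x | x.2 ≤ t + 1}) ∩ {x | x.2 = t} =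
      Z ∩ {x | x.2 = t} := by
    ext x
    simp only [mem_inter_iff, mem_setOf_eq]
    constructor
    · rintro ⟨⟨⟨h, -⟩, -⟩, h'⟩; exact ⟨h, h'⟩
    · rintro ⟨h, h'⟩; exact ⟨⟨⟨h, by linarith⟩, by linarith⟩, h'⟩
  have e4 : ((Z ∩ {x : ℝ × ℝ | t ≤ x.2}) ∩ {x | x.2 ≤ t + 1}) ∩ {x | x.2 = t + 1} =
      Z ∩ {x | x.2 = t + 1} := by
    ext x
    simp only [mem_inter_iff, mem_setOf_eq]
    constructor
    · rintro ⟨⟨⟨h, -⟩, -⟩, h'⟩; exact ⟨h, h'⟩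
    · rintro ⟨h, h'⟩; exact ⟨⟨⟨h, by linarith⟩, by linarith⟩, h'⟩
  have h3 := h6 ((Z ∩ {x : ℝ × ℝ | t ≤ x.2}) ∩ {x | x.2 ≤ t + 1}) C t κ (hZ'.inter_right hcl2)
    (hZ'c.inter (convex_snd_le (t + 1))) hC hCc hCs hCw hκ hκC
    (by rw [e3]; exact ⟨a, haZ, hat⟩) (by rw [e4]; exact ⟨b, hbZ, hbt⟩)
    (fun x hx => ⟨hx.1.2, hx.2⟩)
  rw [e3, e4] at h3
  linarith

end Pool.Agent.H91.TSD
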